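import Pool.Agent.helper577_eps.TwoSqCount

/-!
Q1 asks whether some `S (a) = {x : x ∼ a, x + 1 ∼ a + 1}` contains two distinct squares. We show that the larger
square roots form a sparse set: for every `ε > 0` there are `O (X ^ (3/4 + ε))` integers `n ≤ X` such that `n ^ 2` and
a smaller square `m ^ 2`, `m ≥ 1`, lie in one `S (a)`.

Proof. (1) Every prime divisor of `n (n ^ 2 + 1)` divides `n ^ 2 - m ^ 2`, so the squarefree parts `t₁, t₂` of
`n = t₁ a ^ 2` and `n ^ 2 + 1 = t₂ b ^ 2` satisfy `t₁ t₂ < n ^ 2`.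
(2) At most `A (log₂ X + 1)` integers `n ≤ X` have `t₂ ≤ A`, as the solutions of `n ^ 2 + 1 = t b ^ 2` at least double.
(3) If `b ≤ B`, then `t₁ < n ^ 2 / t₂ ≤ B ^ 2`, which holds for at most `2 B √X` integers `n ≤ X`.
(4) If `t₂ > A` and `b > B`, then `B < b ≤ 2 X / √A`; for a given `b` there are at most `τ (b ^ 2) (X / b ^ 2 + 1)`
integers `n ≤ X` with `b ^ 2 ∣ n ^ 2 + 1`. Take `A = X ^ (3/4)` and `B = X ^ (1/4)`.
-/

set_option autoImplicit false

namespace Pool.Agent.Results.MP_c831ba_nt.LargerSquareSparse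

/-- The product of the distinct primes dividing `x`. -/
def rad (x : ℕ) : ℕ := ∏ p ∈ x.primeFactors, p

/-- The set `S (a)` of the problem. -/
def S (a : ℕ) : Set ℕ := {x | 1 ≤ x ∧ rad x = rad a ∧ rad (x + 1) = rad (a + 1)}

/-- The integers `n ≥ 1` such that `n ^ 2` and a smaller positive square lie in one set `S (a)`, `a ≥ 1`. -/
def Larger : Set ℕ := {n | 1 ≤ n ∧ ∃ a : ℕ, 1 ≤ a ∧ n ^ 2 ∈ S a ∧ ∃ m : ℕ, 1 ≤ m ∧ m < n ∧ m ^ 2 ∈ S a}

/-- **Theorem.** For every `ε > 0` there is a constant `C` such that for every `X ≥ 1` at most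
`C X ^ (3/4 + ε)` integers `n ≤ X` are such that `n ^ 2` and a smaller positive square lie in one set `S (a)`. -/
theorem result (ε : ℝ) (hε : 0 < ε) : ∃ C : ℝ, 0 < C ∧ ∀ X : ℕ, 1 ≤ X →
    {n : ℕ | n ∈ Larger ∧ n ≤ X}.Finite ∧
    ({n : ℕ | n ∈ Larger ∧ n ≤ X}.ncard : ℝ) ≤ C * (X : ℝ) ^ (3 / 4 + ε) := by
  have key : ∀ a b : ℕ, 1 ≤ a → 1 ≤ b → rad a = rad b → ∀ p : ℕ, p.Prime → (p ∣ a ↔ p ∣ b) := by
    intro a b ha hb h p hp
    have e1 : ∀ c : ℕ, 1 ≤ c → (p ∣ c ↔ p ∣ rad c) := by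
      intro c hc
      unfold rad
      constructor
      · intro hpc
        exact Finset.dvd_prod_of_mem (fun p => p) (Nat.mem_primeFactors.2 ⟨hp, hpc, by omega⟩)
      · intro hpc
        exact hpc.trans (Nat.prod_primeFactors_dvd c)
    rw [e1 a ha, e1 b hb, h]
  obtain ⟨C, hC, h⟩ := Pool.Agent.Helper577Eps.twosq_count ε hε
  refine ⟨C, hC, fun X hX => ?_⟩
  have hfin : {n : ℕ | n ∈ Larger ∧ n ≤ X}.Finite := (Set.finite_Iic X).subset fun x hx => hx.2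
  refine ⟨hfin, ?_⟩
  rw [Set.ncard_eq_toFinset_card _ hfin]
  refine h X hX _ fun n hn => ?_
  rw [Set.Finite.mem_toFinset] at hn
  obtain ⟨⟨hn1, a, ha, ⟨hn2, hna, hna1⟩, m, hm, hmn, hm2, hma, hma1⟩, hnX⟩ := hn
  refine ⟨hnX, m, hm, hmn, fun p hp => ?_, fun p hp => ?_⟩
  · have := key (m ^ 2) (n ^ 2) hm2 hn2 (hma.trans hna.symm) p hp
    rw [hp.prime.dvd_pow_iff_dvd (by norm_num)] at this
    rw [hp.prime.dvd_pow_iff_dvd (by norm_num)] at this
    exact this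
  · exact key (m ^ 2 + 1) (n ^ 2 + 1) (by omega) (by omega) (hma1.trans hna1.symm) p hp

end Pool.Agent.Results.MP_c831ba_nt.LargerSquareSparse
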